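import Mathlib
import Pool.Agent.Helper226.VCNorm

/-! Counting third order jets. -/

set_option autoImplicit false

universe u

namespace Pool.Agent.Q84.Pow

open MvPolynomial

variable {K : Type u} [Field K] {ι : Type} [Fintype ι] {s : ℕ}

lemma monomial_mem (α : Fin s →₀ ℕ) {m : ℕ} (h : m ≤ α.degree) (r : K) :
    (monomial α r : MvPolynomial (Fin s) K) ∈ idealOfVars (Fin s) K ^ m := by
  classical
  rw [mem_pow_idealOfVars_iff']
  intro β hβ
  rw [coeff_monomial, if_neg]
  rintro rfl
  omega

lemma exists_form0 (x : ι → MvPolynomial (Fin s) K) (lam : Fin s → ι → K)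
    (h2 : ∀ a, ∑ j, C (lam a j) * x j - X a ∈ idealOfVars (Fin s) K ^ 2) (m : ℕ) :
    ∀ α : Fin s →₀ ℕ, α.degree = m → ∃ g : MvPolynomial ι K, g.IsHomogeneous m ∧
      aeval x g - monomial α 1 ∈ idealOfVars (Fin s) K ^ (m + 1) := by
  induction m with
  | zero =>
    intro α hα
    have h0 : α = 0 := (Finsupp.degree_eq_zero_iff _).1 hα
    refine ⟨1, isHomogeneous_one _ _, ?_⟩
    rw [h0, map_one]
    have : (monomial (0 : Fin s →₀ ℕ) (1 : K)) = 1 := rfl
    rw [this, sub_self]
    exact Ideal.zero_mem _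
  | succ m ih =>
    intro α hα
    obtain ⟨i, ν, rfl, hν⟩ := Pool.Agent.Helper226.exists_add_of_degree_succ α m hα
    obtain ⟨g, hg1, hg2⟩ := ih ν hν
    refine ⟨(∑ j, C (lam i j) * X j) * g, ?_, ?_⟩
    · rw [add_comm m 1]
      refine IsHomogeneous.mul ?_ hg1
      refine IsHomogeneous.sum _ _ _ fun j _ => ?_
      have := (isHomogeneous_C ι (lam i j)).mul (isHomogeneous_X K j)
      rwa [zero_add] at this
    · have h3 : (monomial (Finsupp.single i 1 + ν) (1 : K)) = X i * monomial ν 1 := by
        rw [X, monomial_mul, one_mul]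
      have h4 : aeval x (∑ j, C (lam i j) * X j : MvPolynomial ι K) = ∑ j, C (lam i j) * x j := by
        rw [map_sum]
        refine Finset.sum_congr rfl fun j _ => ?_
        rw [map_mul, aeval_X, aeval_C, algebraMap_eq]
      rw [map_mul, h4, h3]
      have h5 : (∑ j, C (lam i j) * x j) * aeval x g - X i * monomial ν 1 =
          (∑ j, C (lam i j) * x j - X i) * (aeval x g - monomial ν 1) +
          (∑ j, C (lam i j) * x j - X i) * monomial ν 1 +
          X i * (aeval x g - monomial ν 1) := by ring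
      rw [h5]
      have hX : (X i : MvPolynomial (Fin s) K) ∈ idealOfVars (Fin s) K ^ 1 := by
        rw [pow_one]
        exact Ideal.subset_span ⟨i, rfl⟩
      have hν' : (monomial ν (1 : K)) ∈ idealOfVars (Fin s) K ^ m := monomial_mem ν hν.ge 1
      refine Ideal.add_mem _ (Ideal.add_mem _ ?_ ?_) ?_
      · have h6 := Ideal.mul_mem_mul (h2 i) hg2
        rw [← pow_add] at h6
        exact Ideal.pow_le_pow_right (by omega) h6
      · have h6 := Ideal.mul_mem_mul (h2 i) hν'
        rw [← pow_add] at h6
        exact Ideal.pow_le_pow_right (by omega) h6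
      · have h6 := Ideal.mul_mem_mul hX hg2
        rw [← pow_add] at h6
        exact Ideal.pow_le_pow_right (by omega) h6

lemma exists_form (x : ι → MvPolynomial (Fin s) K) (ℓ : ι → K) (lam : Fin s → ι → K)
    (h1 : ∑ j, C (ℓ j) * x j - 1 ∈ idealOfVars (Fin s) K ^ 2)
    (h2 : ∀ a, ∑ j, C (lam a j) * x j - X a ∈ idealOfVars (Fin s) K ^ 2) (m : ℕ)
    (α : Fin s →₀ ℕ) (hα : α.degree = m) (M : ℕ) :
    ∃ g : MvPolynomial ι K, g.IsHomogeneous (m + M) ∧
      aeval x g - monomial α 1 ∈ idealOfVars (Fin s) K ^ (m + 1) := by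
  induction M with
  | zero => exact exists_form0 x lam h2 m α hα
  | succ M ih =>
    obtain ⟨g, hg1, hg2⟩ := ih
    refine ⟨g * (∑ j, C (ℓ j) * X j), ?_, ?_⟩
    · rw [← add_assoc]
      refine IsHomogeneous.mul hg1 ?_
      refine IsHomogeneous.sum _ _ _ fun j _ => ?_
      have := (isHomogeneous_C ι (ℓ j)).mul (isHomogeneous_X K j)
      rwa [zero_add] at this
    · have h4 : aeval x (∑ j, C (ℓ j) * X j : MvPolynomial ι K) = ∑ j, C (ℓ j) * x j := by
        rw [map_sum]
        refine Finset.sum_congr rfl fun j _ => ?_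
        rw [map_mul, aeval_X, aeval_C, algebraMap_eq]
      rw [map_mul, h4]
      have h5 : aeval x g * (∑ j, C (ℓ j) * x j) - monomial α 1 =
          (aeval x g - monomial α 1) * (∑ j, C (ℓ j) * x j) +
          monomial α 1 * (∑ j, C (ℓ j) * x j - 1) := by ring
      rw [h5]
      have hα' : (monomial α (1 : K)) ∈ idealOfVars (Fin s) K ^ m := monomial_mem α hα.ge 1
      refine Ideal.add_mem _ (Ideal.mul_mem_right _ _ hg2) ?_
      have h6 := Ideal.mul_mem_mul hα' h1
      rw [← pow_add] at h6
      exact Ideal.pow_le_pow_right (by omega) h6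

lemma surj_form (x : ι → MvPolynomial (Fin s) K) (ℓ : ι → K) (lam : Fin s → ι → K)
    (h1 : ∑ j, C (ℓ j) * x j - 1 ∈ idealOfVars (Fin s) K ^ 2)
    (h2 : ∀ a, ∑ j, C (lam a j) * x j - X a ∈ idealOfVars (Fin s) K ^ 2) (N : ℕ) (hN : 3 ≤ N)
    (i : ℕ) (hi : i ≤ 4) :
    ∀ q ∈ idealOfVars (Fin s) K ^ (4 - i), ∃ g : MvPolynomial ι K, g.IsHomogeneous N ∧
      aeval x g - q ∈ idealOfVars (Fin s) K ^ 4 := by
  classical
  induction i with
  | zero =>
    intro q hq
    refine ⟨0, isHomogeneous_zero _ _ _, ?_⟩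
    rw [map_zero, zero_sub]
    exact neg_mem hq
  | succ i ih =>
    intro q hq
    obtain ⟨j, hj⟩ : ∃ j, j = 4 - (i + 1) := ⟨_, rfl⟩
    rw [← hj] at hq
    have hj3 : 4 - i = j + 1 := by omega
    rw [hj3] at ih
    have hex : ∀ α : Fin s →₀ ℕ, ∃ g : MvPolynomial ι K, g.IsHomogeneous N ∧ (α.degree = j →
        aeval x g - monomial α 1 ∈ idealOfVars (Fin s) K ^ (j + 1)) := by
      intro α
      by_cases hα : α.degree = j
      · obtain ⟨g, hg1, hg2⟩ := exists_form x ℓ lam h1 h2 j α hα (N - j)
        rw [show j + (N - j) = N by omega] at hg1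
        exact ⟨g, hg1, fun _ => hg2⟩
      · exact ⟨0, isHomogeneous_zero _ _ _, fun h => absurd h hα⟩
    choose gg hgg1 hgg2 using hex
    let g0 : MvPolynomial ι K := ∑ α ∈ q.support.filter (fun α => α.degree = j),
      C (coeff α q) * gg α
    have hg0 : g0.IsHomogeneous N := by
      refine IsHomogeneous.sum _ _ _ fun α _ => ?_
      have := (isHomogeneous_C ι (coeff α q)).mul (hgg1 α)
      rwa [zero_add] at this
    have hq' : q - aeval x g0 ∈ idealOfVars (Fin s) K ^ (j + 1) := by
      have e1 : q = ∑ α ∈ q.support.filter (fun α => α.degree = j), monomial α (coeff α q) +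
          ∑ α ∈ q.support.filter (fun α => ¬ α.degree = j), monomial α (coeff α q) := by
        rw [Finset.sum_filter_add_sum_filter_not]
        exact q.as_sum
      have e2 : aeval x g0 = ∑ α ∈ q.support.filter (fun α => α.degree = j),
          C (coeff α q) * aeval x (gg α) := by
        simp only [g0, map_sum, map_mul, aeval_C, algebraMap_eq]
      have e3 : q - aeval x g0 = - (∑ α ∈ q.support.filter (fun α => α.degree = j),
          C (coeff α q) * (aeval x (gg α) - monomial α 1)) +
          ∑ α ∈ q.support.filter (fun α => ¬ α.degree = j), monomial α (coeff α q) := by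
        have e4 : ∀ α, C (coeff α q) * (aeval x (gg α) - monomial α 1) =
            C (coeff α q) * aeval x (gg α) - monomial α (coeff α q) := by
          intro α
          rw [mul_sub, C_mul_monomial, mul_one]
        rw [Finset.sum_congr rfl fun α _ => e4 α, Finset.sum_sub_distrib, e2]
        linear_combination e1
      rw [e3]
      refine Ideal.add_mem _ (neg_mem (Ideal.sum_mem _ fun α hα => ?_))
        (Ideal.sum_mem _ fun α hα => ?_)
      · exact Ideal.mul_mem_left _ _ (hgg2 α (Finset.mem_filter.1 hα).2)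
      · obtain ⟨h3, h4⟩ := Finset.mem_filter.1 hα
        have h5 := (mem_pow_idealOfVars_iff j q).1 hq α h3
        exact monomial_mem α (by omega) _
    obtain ⟨g1, hg1, hg2⟩ := ih (by omega) _ hq'
    refine ⟨g0 + g1, hg0.add hg1, ?_⟩
    rw [map_add]
    convert hg2 using 1
    ring

lemma homogeneousComponent_mul_of {σ : Type*} (a f : MvPolynomial σ K) (m d : ℕ)
    (hf : f.IsHomogeneous d) :
    homogeneousComponent (m + d) (a * f) = homogeneousComponent m a * f := by
  conv_lhs => rw [← sum_homogeneousComponent a]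
  rw [Finset.sum_mul, map_sum]
  have h1 : ∀ i, homogeneousComponent (m + d) (homogeneousComponent i a * f) =
      if i = m then homogeneousComponent m a * f else 0 := by
    intro i
    have h2 : (homogeneousComponent i a * f).IsHomogeneous (i + d) :=
      (homogeneousComponent_isHomogeneous i a).mul hf
    rw [homogeneousComponent_of_mem h2]
    by_cases h : i = m
    · subst h; simp
    · rw [if_neg h, if_neg (by omega)]
  simp only [h1]
  by_cases hm : m < a.totalDegree + 1
  · rw [Finset.sum_ite_eq' (Finset.range (a.totalDegree + 1)) m, if_pos (Finset.mem_range.2 hm)]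
  · rw [Finset.sum_ite_eq' (Finset.range (a.totalDegree + 1)) m,
      if_neg (fun h => hm (Finset.mem_range.1 h)), homogeneousComponent_eq_zero _ _ (by omega),
      zero_mul]

/-- extraction -/
lemma extract {κ : Type} [Fintype κ] (f : κ → MvPolynomial ι K) (hf : ∀ i, (f i).IsHomogeneous 2)
    (x : ι → MvPolynomial (Fin s) K) (c : κ → K) (H : Ideal (MvPolynomial (Fin s) K))
    (hc : ∀ i, aeval x (f i) - C (c i) ∈ H) (k : ℕ) :
    ∀ g ∈ Ideal.span (Set.range f) ^ k, ∀ j, ∃ u : MvPolynomial ι K, u.IsHomogeneous j ∧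
      aeval x (homogeneousComponent (2 * k + j) g) - aeval x u ∈ H := by
  induction k with
  | zero =>
    intro g _ j
    refine ⟨homogeneousComponent j g, homogeneousComponent_isHomogeneous _ _, ?_⟩
    rw [mul_zero, zero_add, sub_self]
    exact H.zero_mem
  | succ k ih =>
    intro g hg j
    rw [pow_succ] at hg
    induction hg using Submodule.mul_induction_on' with
    | mem_mul_mem a ha b hb =>
      obtain ⟨r, hr⟩ := (Ideal.mem_span_range_iff_exists_fun).1 hb
      have h1 : ∀ i, ∃ u : MvPolynomial ι K, u.IsHomogeneous j ∧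
          aeval x (homogeneousComponent (2 * k + j) (a * r i)) - aeval x u ∈ H :=
        fun i => ih _ (Ideal.mul_mem_right _ _ ha) j
      choose u hu1 hu2 using h1
      refine ⟨∑ i, C (c i) * u i, ?_, ?_⟩
      · refine IsHomogeneous.sum _ _ _ fun i _ => ?_
        have := (isHomogeneous_C ι (c i)).mul (hu1 i)
        rwa [zero_add] at this
      · have h2 : a * b = ∑ i, (a * r i) * f i := by
          rw [← hr, Finset.mul_sum]
          exact Finset.sum_congr rfl fun i _ => (mul_assoc _ _ _).symm
        have h3 : homogeneousComponent (2 * (k + 1) + j) (a * b) =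
            ∑ i, homogeneousComponent (2 * k + j) (a * r i) * f i := by
          rw [h2, map_sum]
          refine Finset.sum_congr rfl fun i _ => ?_
          rw [show 2 * (k + 1) + j = (2 * k + j) + 2 by ring]
          exact homogeneousComponent_mul_of _ _ _ _ (hf i)
        rw [h3, map_sum, map_sum, ← Finset.sum_sub_distrib]
        refine Ideal.sum_mem _ fun i _ => ?_
        rw [map_mul (aeval x) (homogeneousComponent (2 * k + j) (a * r i)) (f i),
          map_mul (aeval x) (C (c i)) (u i), aeval_C, algebraMap_eq]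
        have h4 : aeval x (homogeneousComponent (2 * k + j) (a * r i)) * aeval x (f i) -
            C (c i) * aeval x (u i) =
            aeval x (homogeneousComponent (2 * k + j) (a * r i)) * (aeval x (f i) - C (c i)) +
            C (c i) * (aeval x (homogeneousComponent (2 * k + j) (a * r i)) - aeval x (u i)) := by
          ring
        rw [h4]
        exact Ideal.add_mem _ (Ideal.mul_mem_left _ _ (hc i)) (Ideal.mul_mem_left _ _ (hu2 i))
    | add a _ b _ ha hb =>
      obtain ⟨u, hu1, hu2⟩ := ha
      obtain ⟨v, hv1, hv2⟩ := hb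
      refine ⟨u + v, hu1.add hv1, ?_⟩
      rw [map_add, map_add, map_add]
      convert Ideal.add_mem _ hu2 hv2 using 1
      ring

/-- the exponents of degree at most three -/
noncomputable def D4 (s : ℕ) : Finset (Fin s →₀ ℕ) :=
  (Finset.range 4).biUnion fun i => Finset.finsuppAntidiag Finset.univ i

lemma mem_D4 (α : Fin s →₀ ℕ) : α ∈ D4 s ↔ α.degree < 4 := by
  unfold D4
  rw [Finset.mem_biUnion]
  constructor
  · rintro ⟨i, hi, h⟩
    rw [Finset.mem_finsuppAntidiag] at h
    rw [Finset.mem_range] at hi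
    rw [Finsupp.degree_eq_sum, h.1]
    exact hi
  · intro h
    refine ⟨α.degree, Finset.mem_range.2 h, ?_⟩
    rw [Finset.mem_finsuppAntidiag]
    exact ⟨(Finsupp.degree_eq_sum α).symm, Finset.subset_univ _⟩

lemma card_D4 (s : ℕ) : (D4 s).card = 1 + s + (s + 1).choose 2 + (s + 2).choose 3 := by
  unfold D4
  rw [Finset.card_biUnion]
  · simp only [Finset.sum_range_succ, Finset.sum_range_zero, zero_add,
      Finset.card_finsuppAntidiag_nat_eq_choose, Finset.card_univ, Fintype.card_fin]
    simp only [Nat.choose_zero_right, Nat.choose_one_right]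
    rw [show s + 1 - 1 = s by omega, show s + 2 - 1 = s + 1 by omega,
      show s + 3 - 1 = s + 2 by omega]
  · intro i _ j _ hij
    change Disjoint (Finset.finsuppAntidiag (Finset.univ : Finset (Fin s)) i)
      (Finset.finsuppAntidiag (Finset.univ : Finset (Fin s)) j)
    rw [Finset.disjoint_left]
    intro μ h1 h2
    rw [Finset.mem_finsuppAntidiag] at h1 h2
    exact hij (h1.1.symm.trans h2.1)

/-- the coefficients of degree at most three -/
noncomputable def phi (K : Type u) [Field K] (s : ℕ) :
    MvPolynomial (Fin s) K →ₗ[K] ((D4 s) → K) :=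
  LinearMap.pi fun α => lcoeff K α.1

lemma phi_zero (q : MvPolynomial (Fin s) K) (hq : q ∈ idealOfVars (Fin s) K ^ 4) :
    phi K s q = 0 := by
  ext α
  have h1 := (mem_D4 α.1).1 α.2
  exact (mem_pow_idealOfVars_iff' 4 q).1 hq α.1 h1

lemma phi_surj (v : (D4 s) → K) : ∃ q, phi K s q = v := by
  classical
  refine ⟨∑ α : D4 s, monomial α.1 (v α), ?_⟩
  ext α
  change coeff α.1 (∑ β : D4 s, monomial β.1 (v β)) = v α
  rw [coeff_sum, Finset.sum_eq_single α]
  · rw [coeff_monomial, if_pos rfl]
  · intro β _ hβ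
    rw [coeff_monomial, if_neg (fun h => hβ (Subtype.ext h))]
  · simp

/-- multiples of an element of order two -/
lemma phi_mul (a h : MvPolynomial (Fin s) K) (hh : h ∈ idealOfVars (Fin s) K ^ 2) :
    phi K s (a * h) = coeff 0 a • phi K s h +
      ∑ i, coeff (Finsupp.single i 1) a • phi K s (X i * h) := by
  classical
  have h1 : a - (C (coeff 0 a) + ∑ i, C (coeff (Finsupp.single i 1) a) * X i) ∈
      idealOfVars (Fin s) K ^ 2 := by
    rw [mem_pow_idealOfVars_iff']
    intro μ hμ
    rw [coeff_sub, coeff_add, coeff_sum, coeff_C]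
    simp only [coeff_C_mul, coeff_X]
    rcases Nat.lt_or_ge μ.degree 1 with h0 | h0
    · have hμ0 : μ = 0 := (Finsupp.degree_eq_zero_iff _).1 (by omega)
      subst hμ0
      have : ∀ i : Fin s, ¬ (Finsupp.single i 1 = (0 : Fin s →₀ ℕ)) := by
        intro i h
        have := congrArg Finsupp.degree h
        simp at this
      simp [this]
    · obtain ⟨i, ν, hi, hν⟩ := Pool.Agent.Helper226.exists_add_of_degree_succ μ 0 (by omega)
      have hν0 : ν = 0 := (Finsupp.degree_eq_zero_iff _).1 hν
      subst hν0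
      rw [add_zero] at hi
      subst hi
      have h3 : ¬ ((0 : Fin s →₀ ℕ) = Finsupp.single i 1) := by
        intro h
        have := congrArg Finsupp.degree h
        simp at this
      rw [if_neg h3, zero_add, Finset.sum_eq_single i]
      · simp
      · intro j _ hj
        rw [if_neg, mul_zero]
        intro h
        exact hj (Finsupp.single_left_injective one_ne_zero h)
      · simp
  have h2 := Ideal.mul_mem_mul h1 hh
  rw [← pow_add] at h2
  have h3 := phi_zero _ h2
  have h4 : a * h = (a - (C (coeff 0 a) + ∑ i, C (coeff (Finsupp.single i 1) a) * X i)) * h +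
      (coeff 0 a • h + ∑ i, coeff (Finsupp.single i 1) a • (X i * h)) := by
    simp only [smul_eq_C_mul]
    rw [sub_mul, add_mul, Finset.sum_mul]
    have : ∀ i : Fin s, C (coeff (Finsupp.single i 1) a) * X i * h =
        C (coeff (Finsupp.single i 1) a) * (X i * h) := fun i => mul_assoc _ _ _
    rw [Finset.sum_congr rfl fun i _ => this i]
    ring
  rw [h4, map_add, h3, zero_add, map_add, map_smul, map_sum]
  simp only [map_smul]

theorem count {κ : Type} [Fintype κ] {e : ℕ} (f : κ → MvPolynomial ι K)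
    (hf : ∀ i, (f i).IsHomogeneous 2) (c : κ → K)
    (x : ι → MvPolynomial (Fin s) K) (h : Fin e → MvPolynomial (Fin s) K)
    (ℓ : ι → K) (lam : Fin s → ι → K)
    (h0 : ∀ i, aeval x (f i) - C (c i) ∈ Ideal.span (Set.range h) ⊔ idealOfVars (Fin s) K ^ 4)
    (hh : ∀ t, h t ∈ idealOfVars (Fin s) K ^ 2)
    (h1 : ∑ j, C (ℓ j) * x j - 1 ∈ idealOfVars (Fin s) K ^ 2)
    (h2 : ∀ a, ∑ j, C (lam a j) * x j - X a ∈ idealOfVars (Fin s) K ^ 2) (k : ℕ) (hk : 1 ≤ k)
    (hall : ∀ g : MvPolynomial ι K, g.IsHomogeneous (2 * k + 1) →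
      g ∈ Ideal.span (Set.range f) ^ k) :
    1 + s + (s + 1).choose 2 + (s + 2).choose 3 ≤ Fintype.card ι + (e + e * s) := by
  classical
  let y : ι ⊕ (Fin e ⊕ (Fin e × Fin s)) → ((D4 s) → K) :=
    Sum.elim (fun j => phi K s (x j)) (Sum.elim (fun t => phi K s (h t))
      (fun p => phi K s (X p.2 * h p.1)))
  have hy1 : ∀ j, phi K s (x j) ∈ Submodule.span K (Set.range y) := fun j =>
    Submodule.subset_span ⟨Sum.inl j, rfl⟩
  have hy2 : ∀ t, phi K s (h t) ∈ Submodule.span K (Set.range y) := fun t =>
    Submodule.subset_span ⟨Sum.inr (Sum.inl t), rfl⟩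
  have hy3 : ∀ t a, phi K s (X a * h t) ∈ Submodule.span K (Set.range y) := fun t a =>
    Submodule.subset_span ⟨Sum.inr (Sum.inr (t, a)), rfl⟩
  have hH : ∀ q ∈ Ideal.span (Set.range h) ⊔ idealOfVars (Fin s) K ^ 4,
      phi K s q ∈ Submodule.span K (Set.range y) := by
    intro q hq
    obtain ⟨q1, hq1, q2, hq2, rfl⟩ := Submodule.mem_sup.1 hq
    rw [map_add, phi_zero q2 hq2, add_zero]
    obtain ⟨r, rfl⟩ := (Ideal.mem_span_range_iff_exists_fun).1 hq1
    rw [map_sum]
    refine Submodule.sum_mem _ fun t _ => ?_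
    rw [phi_mul _ _ (hh t)]
    refine Submodule.add_mem _ (Submodule.smul_mem _ _ (hy2 t)) (Submodule.sum_mem _ fun a _ => ?_)
    exact Submodule.smul_mem _ _ (hy3 t a)
  have htop : Submodule.span K (Set.range y) = ⊤ := by
    rw [eq_top_iff]
    rintro v -
    obtain ⟨q, rfl⟩ := phi_surj v
    obtain ⟨g, hg1, hg2⟩ := surj_form x ℓ lam h1 h2 (2 * k + 1) (by omega) 4 le_rfl q (by simp)
    obtain ⟨u, hu1, hu2⟩ := extract f hf x c _ h0 k g (hall g hg1) 1
    rw [homogeneousComponent_eq_self hg1] at hu2
    have h3 : phi K s q = phi K s (aeval x u) + phi K s (aeval x g - aeval x u) -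
        phi K s (aeval x g - q) := by
      rw [← map_add, ← map_sub]
      congr 1
      ring
    rw [h3, phi_zero _ hg2, sub_zero]
    refine Submodule.add_mem _ ?_ (hH _ hu2)
    have h4 : u ∈ Submodule.span K (Set.range (X : ι → MvPolynomial ι K)) := by
      rw [← homogeneousSubmodule_one_eq_span_X]
      exact hu1
    obtain ⟨r, rfl⟩ := (Submodule.mem_span_range_iff_exists_fun K).1 h4
    rw [map_sum, map_sum]
    refine Submodule.sum_mem _ fun j _ => ?_
    rw [map_smul, map_smul, aeval_X]
    exact Submodule.smul_mem _ _ (hy1 j)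
  have h5 := finrank_range_le_card (R := K) y
  unfold Set.finrank at h5
  rw [htop, finrank_top, Module.finrank_fintype_fun_eq_card, Fintype.card_coe, card_D4] at h5
  simpa using h5

end Pool.Agent.Q84.Pow
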