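import Mathlib

/-! Third order jets of a system of quadratic forms at a point of low rank. -/

set_option autoImplicit false

universe u

namespace Pool.Agent.Q84.Pow

open MvPolynomial

section quad

variable {K : Type u} [Field K] {κ ι : Type} [Fintype κ] [Fintype ι]
  {A : Type u} [CommRing A] [Algebra K A]

/-- the quadratic forms with coefficients `Q` -/
noncomputable def Fq (Q : κ → ι → ι → K) (x : ι → A) (i : κ) : A :=
  ∑ j, ∑ l, algebraMap K A (Q i j l) * (x j * x l)

/-- the polar forms -/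
noncomputable def Bq (Q : κ → ι → ι → K) (x y : ι → A) (i : κ) : A :=
  ∑ j, ∑ l, algebraMap K A (Q i j l) * (x j * y l + y j * x l)

/-- the jacobian matrix -/
noncomputable def Jq (Q : κ → ι → ι → K) (p : ι → K) : Matrix κ ι K :=
  Matrix.of fun i j => ∑ l, (Q i l j + Q i j l) * p l

omit [Fintype κ] in
lemma Fq_add (Q : κ → ι → ι → K) (x y : ι → A) (i : κ) :
    Fq Q (x + y) i = Fq Q x i + Bq Q x y i + Fq Q y i := by
  unfold Fq Bq
  simp only [← Finset.sum_add_distrib, Pi.add_apply]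
  exact Finset.sum_congr rfl fun j _ => Finset.sum_congr rfl fun l _ => by ring

omit [Fintype κ] in
lemma Bq_add (Q : κ → ι → ι → K) (x y z : ι → A) (i : κ) :
    Bq Q x (y + z) i = Bq Q x y i + Bq Q x z i := by
  unfold Bq
  simp only [← Finset.sum_add_distrib, Pi.add_apply]
  exact Finset.sum_congr rfl fun j _ => Finset.sum_congr rfl fun l _ => by ring

omit [Fintype κ] in
lemma Bq_const (Q : κ → ι → ι → K) (p : ι → K) (y : ι → A) (i : κ) :
    Bq Q (fun j => algebraMap K A (p j)) y i = ∑ j, algebraMap K A (Jq Q p i j) * y j := by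
  unfold Bq Jq
  simp only [Matrix.of_apply, map_sum, map_mul, map_add, mul_add, Finset.sum_add_distrib,
    add_mul, Finset.sum_mul]
  congr 1
  · rw [Finset.sum_comm]
    exact Finset.sum_congr rfl fun j _ => Finset.sum_congr rfl fun l _ => by ring
  · exact Finset.sum_congr rfl fun j _ => Finset.sum_congr rfl fun l _ => by ring

omit [Fintype κ] in
lemma Jq_self (Q : κ → ι → ι → K) (p : ι → K) (i : κ) :
    (Jq Q p).mulVec p i = 2 * Fq Q (A := K) p i := by
  have h1 := Bq_const (A := K) Q p p i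
  simp only [Algebra.algebraMap_self, RingHom.id_apply] at h1
  have h2 : (Jq Q p).mulVec p i = Bq (A := K) Q p p i := h1.symm
  rw [h2]
  unfold Bq Fq
  rw [Finset.mul_sum]
  refine Finset.sum_congr rfl fun j _ => ?_
  rw [Finset.mul_sum]
  exact Finset.sum_congr rfl fun l _ => by ring

omit [Fintype κ] in
lemma Fq_mem (Q : κ → ι → ι → K) (x : ι → A) (i : κ) (I : Ideal A) (m : ℕ)
    (hx : ∀ j, x j ∈ I ^ m) : Fq Q x i ∈ I ^ (m + m) := by
  unfold Fq
  refine Ideal.sum_mem _ fun j _ => Ideal.sum_mem _ fun l _ => Ideal.mul_mem_left _ _ ?_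
  rw [pow_add]
  exact Ideal.mul_mem_mul (hx j) (hx l)

omit [Fintype κ] in
lemma Bq_mem (Q : κ → ι → ι → K) (x y : ι → A) (i : κ) (I : Ideal A) (m m' : ℕ)
    (hx : ∀ j, x j ∈ I ^ m) (hy : ∀ j, y j ∈ I ^ m') : Bq Q x y i ∈ I ^ (m + m') := by
  unfold Bq
  refine Ideal.sum_mem _ fun j _ => Ideal.sum_mem _ fun l _ => Ideal.mul_mem_left _ _ ?_
  refine Ideal.add_mem _ ?_ ?_
  · rw [pow_add]
    exact Ideal.mul_mem_mul (hx j) (hy l)
  · rw [add_comm, pow_add]
    exact Ideal.mul_mem_mul (hy j) (hx l)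

end quad

section linalg

variable {K : Type u} [Field K] {κ ι : Type} [Fintype κ] [Fintype ι] [DecidableEq κ]
  [DecidableEq ι]

/-- splitting of a matrix -/
lemma exists_split_matrix (J : Matrix κ ι K) :
    ∃ (ρ : Matrix ι κ K) (Km : Matrix κ (Fin (Fintype.card κ - J.rank)) K)
      (L : Matrix (Fin (Fintype.card κ - J.rank)) κ K), J * ρ + Km * L = 1 := by
  let W := LinearMap.range J.mulVecLin
  have hW : Module.finrank K ((κ → K) ⧸ W) = Fintype.card κ - J.rank := by
    have h1 := Submodule.finrank_quotient_add_finrank W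
    rw [Module.finrank_fintype_fun_eq_card] at h1
    have h2 : Module.finrank K W = J.rank := rfl
    omega
  let e : ((κ → K) ⧸ W) ≃ₗ[K] (Fin (Fintype.card κ - J.rank) → K) :=
    (Module.finBasisOfFinrankEq K _ hW).equivFun
  let Ll : (κ → K) →ₗ[K] (Fin (Fintype.card κ - J.rank) → K) := e.toLinearMap ∘ₗ W.mkQ
  have hLs : LinearMap.range Ll = ⊤ := by
    rw [LinearMap.range_eq_top]
    exact e.surjective.comp (Submodule.mkQ_surjective W)
  obtain ⟨Kl, hKl⟩ := Ll.exists_rightInverse_of_surjective hLs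
  have hker : ∀ y, Ll y = 0 ↔ y ∈ W := by
    intro y
    simp only [Ll, LinearMap.coe_comp, Function.comp_apply, LinearEquiv.coe_coe,
      LinearEquiv.map_eq_zero_iff]
    rw [Submodule.mkQ_apply, Submodule.Quotient.mk_eq_zero]
  obtain ⟨σl, hσl⟩ := (J.mulVecLin.rangeRestrict).exists_rightInverse_of_surjective
    (LinearMap.range_rangeRestrict _)
  let Dl : (κ → K) →ₗ[K] (κ → K) := LinearMap.id - Kl ∘ₗ Ll
  have hcod : ∀ y, Dl y ∈ W := by
    intro y
    apply (hker _).1
    have h1 : Ll (Kl (Ll y)) = Ll y := LinearMap.congr_fun hKl (Ll y)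
    have h2 : Dl y = y - Kl (Ll y) := rfl
    rw [h2, map_sub, h1, sub_self]
  let Pl : (κ → K) →ₗ[K] W := Dl.codRestrict W hcod
  let ρl : (κ → K) →ₗ[K] (ι → K) := σl ∘ₗ Pl
  have key : ∀ y, J.mulVecLin (ρl y) + Kl (Ll y) = y := by
    intro y
    have h1 := LinearMap.congr_fun hσl (Pl y)
    rw [LinearMap.comp_apply, LinearMap.id_apply] at h1
    have h2 := congrArg Subtype.val h1
    have h3 : J.mulVecLin (ρl y) = y - Kl (Ll y) := h2
    rw [h3, sub_add_cancel]
  refine ⟨LinearMap.toMatrix' ρl, LinearMap.toMatrix' Kl, LinearMap.toMatrix' Ll, ?_⟩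
  apply Matrix.toLin'.injective
  apply LinearMap.ext
  intro y
  rw [map_add, Matrix.toLin'_mul, Matrix.toLin'_mul, Matrix.toLin'_toMatrix',
    Matrix.toLin'_toMatrix', Matrix.toLin'_toMatrix', Matrix.toLin'_one]
  exact key y

/-- dual vectors -/
lemma exists_dual {s : ℕ} (p : ι → K) (v : Fin s → ι → K) (hv : LinearIndependent K v)
    (hp : p ∉ Submodule.span K (Set.range v)) :
    ∃ (ℓ : ι → K) (lam : Fin s → ι → K), (∑ j, ℓ j * p j = 1) ∧ (∀ a, ∑ j, ℓ j * v a j = 0) ∧
      (∀ a, ∑ j, lam a j * p j = 0) ∧ ∀ a b, ∑ j, lam a j * v b j = if a = b then 1 else 0 := by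
  have hli : LinearIndependent K (fun o : Option (Fin s) => (Option.casesOn' o p v : ι → K)) :=
    linearIndependent_option'.2 ⟨hv, hp⟩
  let u : Option (Fin s) → ι → K := fun o => Option.casesOn' o p v
  let f : (Option (Fin s) → K) →ₗ[K] (ι → K) := Fintype.linearCombination K u
  have hf : LinearMap.ker f = ⊥ := LinearMap.ker_eq_bot.2 hli.fintypeLinearCombination_injective
  obtain ⟨g, hg⟩ := f.exists_leftInverse_of_injective hf
  have hgu : ∀ o, g (u o) = Pi.single o 1 := by
    intro o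
    have h1 := LinearMap.congr_fun hg (Pi.single o 1)
    rw [LinearMap.comp_apply, LinearMap.id_apply] at h1
    have h2 : f (Pi.single o 1) = u o := by simp [f]
    rw [h2] at h1
    exact h1
  have hgs : ∀ (o : Option (Fin s)) (y : ι → K), ∑ j, g (Pi.single j 1) o * y j = g y o := by
    intro o y
    have h1 : y = ∑ j, y j • (Pi.single j (1 : K) : ι → K) := by
      ext l
      simp [Finset.sum_apply, Pi.single_apply]
    conv_rhs => rw [h1]
    rw [map_sum, Finset.sum_apply]
    exact Finset.sum_congr rfl fun j _ => by rw [map_smul, Pi.smul_apply, smul_eq_mul, mul_comm]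
  refine ⟨fun j => g (Pi.single j 1) none, fun a j => g (Pi.single j 1) (some a), ?_, ?_, ?_, ?_⟩
  · rw [hgs]
    have := hgu none
    change g p none = 1
    change g p = _ at this
    rw [this]; simp
  · intro a
    rw [hgs]
    have := hgu (some a)
    change g (v a) = _ at this
    rw [this]; simp
  · intro a
    rw [hgs]
    have := hgu none
    change g p = _ at this
    rw [this]; simp
  · intro a b
    rw [hgs]
    have := hgu (some b)
    change g (v b) = _ at this
    rw [this, Pi.single_apply]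
    simp

end linalg

section jet

variable {K : Type u} [Field K] {κ ι : Type} [Fintype κ] [Fintype ι] [DecidableEq κ]
  [DecidableEq ι]

lemma jet_aux (Q : κ → ι → ι → K) (p : ι → K) {s e : ℕ} (v : Fin s → ι → K)
    (hJv : ∀ a i, ∑ j, Jq Q p i j * v a j = 0) (ρ : Matrix ι κ K) (Km : Matrix κ (Fin e) K)
    (L : Matrix (Fin e) κ K) (hρ : Jq Q p * ρ + Km * L = 1)
    (ℓ : ι → K) (lam : Fin s → ι → K) (e1 : ∑ j, ℓ j * p j = 1)
    (e2 : ∀ a, ∑ j, ℓ j * v a j = 0) (e3 : ∀ a, ∑ j, lam a j * p j = 0)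
    (e4 : ∀ a b, ∑ j, lam a j * v b j = if a = b then 1 else 0) :
    ∃ (x : ι → MvPolynomial (Fin s) K) (h : Fin e → MvPolynomial (Fin s) K),
      (∀ i, Fq Q x i - C (Fq (A := K) Q p i) ∈
        Ideal.span (Set.range h) ⊔ idealOfVars (Fin s) K ^ 4) ∧
      (∀ t, h t ∈ idealOfVars (Fin s) K ^ 2) ∧
      (∑ j, C (ℓ j) * x j - 1 ∈ idealOfVars (Fin s) K ^ 2) ∧
      ∀ a, ∑ j, C (lam a j) * x j - X a ∈ idealOfVars (Fin s) K ^ 2 := by
  obtain ⟨I, hI⟩ : ∃ I : Ideal (MvPolynomial (Fin s) K), I = idealOfVars (Fin s) K := ⟨_, rfl⟩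
  rw [← hI]
  have hX : ∀ a : Fin s, (X a : MvPolynomial (Fin s) K) ∈ I := fun a => by
    rw [hI]; exact Ideal.subset_span ⟨a, rfl⟩
  clear hI
  obtain ⟨pc, hpc⟩ : ∃ pc : ι → MvPolynomial (Fin s) K, pc = fun j => algebraMap K _ (p j) :=
    ⟨_, rfl⟩
  obtain ⟨zv, hzv'⟩ : ∃ zv : ι → MvPolynomial (Fin s) K, zv = fun j => ∑ a, X a * C (v a j) :=
    ⟨_, rfl⟩
  obtain ⟨w2, hw2'⟩ : ∃ w2 : ι → MvPolynomial (Fin s) K,
    w2 = fun j => -∑ i, C (ρ j i) * Fq Q zv i := ⟨_, rfl⟩
  obtain ⟨w3, hw3'⟩ : ∃ w3 : ι → MvPolynomial (Fin s) K,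
    w3 = fun j => -∑ i, C (ρ j i) * Bq Q zv w2 i := ⟨_, rfl⟩
  obtain ⟨g, hg'⟩ : ∃ g : κ → MvPolynomial (Fin s) K,
    g = fun i => Fq Q zv i + Bq Q zv w2 i := ⟨_, rfl⟩
  have hzv : ∀ j, zv j ∈ I ^ 1 := by
    intro j
    rw [pow_one, hzv']
    exact Ideal.sum_mem _ fun a _ => Ideal.mul_mem_right _ _ (hX a)
  have hw2 : ∀ j, w2 j ∈ I ^ 2 := by
    intro j
    rw [hw2']
    exact neg_mem (Ideal.sum_mem _ fun i _ => Ideal.mul_mem_left _ _ (Fq_mem Q zv i I 1 hzv))
  have hw3 : ∀ j, w3 j ∈ I ^ 3 := by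
    intro j
    rw [hw3']
    exact neg_mem (Ideal.sum_mem _ fun i _ => Ideal.mul_mem_left _ _
      (Bq_mem Q zv w2 i I 1 2 hzv hw2))
  have hg : ∀ i, g i ∈ I ^ 2 := by
    intro i
    rw [hg']
    exact Ideal.add_mem _ (Fq_mem Q zv i I 1 hzv)
      (Ideal.pow_le_pow_right (by norm_num) (Bq_mem Q zv w2 i I 1 2 hzv hw2))
  have hw : ∀ j, (w2 + w3) j ∈ I ^ 2 := fun j => Ideal.add_mem _ (hw2 j)
    (Ideal.pow_le_pow_right (by norm_num) (hw3 j))
  have h5w : ∀ j, (w2 + w3) j = - ∑ i', C (ρ j i') * g i' := by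
    intro j
    rw [Pi.add_apply, hw3', hg']
    simp only [mul_add, Finset.sum_add_distrib, neg_add]
    rw [hw2']
  refine ⟨pc + (zv + (w2 + w3)), fun t => ∑ i, C (L t i) * g i, ?_, ?_, ?_, ?_⟩
  · intro i
    have f1 : Fq Q pc i = C (Fq (A := K) Q p i) := by
      rw [hpc]
      unfold Fq
      simp only [Algebra.algebraMap_self, RingHom.id_apply, map_sum, map_mul, algebraMap_eq]
    have f2 : Bq Q pc zv i = 0 := by
      rw [hpc, Bq_const, hzv']
      simp only [Finset.mul_sum]
      rw [Finset.sum_comm]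
      refine Finset.sum_eq_zero fun a _ => ?_
      calc ∑ j, algebraMap K (MvPolynomial (Fin s) K) (Jq Q p i j) * (X a * C (v a j))
          = X a * C (∑ j, Jq Q p i j * v a j) := by
            rw [map_sum, Finset.mul_sum]
            refine Finset.sum_congr rfl fun j _ => ?_
            rw [C_mul, algebraMap_eq]
            ring
        _ = 0 := by rw [hJv, map_zero, mul_zero]
    have f3 : Bq Q pc (w2 + w3) i = - ∑ i', C ((Jq Q p * ρ) i i') * g i' := by
      rw [hpc, Bq_const]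
      simp only [h5w, mul_neg, Finset.sum_neg_distrib]
      congr 1
      simp only [Finset.mul_sum]
      rw [Finset.sum_comm]
      refine Finset.sum_congr rfl fun l _ => ?_
      rw [Matrix.mul_apply, map_sum, Finset.sum_mul]
      refine Finset.sum_congr rfl fun j _ => ?_
      rw [algebraMap_eq, C_mul, mul_assoc]
    have f4 : g i = ∑ i', C ((Jq Q p * ρ) i i') * g i' +
        ∑ t, C (Km i t) * ∑ i', C (L t i') * g i' := by
      have h5 : ∑ t, C (Km i t) * ∑ i', C (L t i') * g i' = ∑ i', C ((Km * L) i i') * g i' := by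
        simp only [Finset.mul_sum]
        rw [Finset.sum_comm]
        refine Finset.sum_congr rfl fun l _ => ?_
        rw [Matrix.mul_apply, map_sum, Finset.sum_mul]
        refine Finset.sum_congr rfl fun j _ => ?_
        rw [C_mul, mul_assoc]
      rw [h5, ← Finset.sum_add_distrib]
      have h6 : ∀ i', C ((Jq Q p * ρ) i i') * g i' + C ((Km * L) i i') * g i' =
          C ((1 : Matrix κ κ K) i i') * g i' := by
        intro i'
        rw [← add_mul, ← map_add, ← Matrix.add_apply, hρ]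
      rw [Finset.sum_congr rfl fun i' _ => h6 i', Finset.sum_eq_single i]
      · rw [Matrix.one_apply_eq, C_1, one_mul]
      · intro i' _ hi'
        rw [Matrix.one_apply_ne (Ne.symm hi'), C_0, zero_mul]
      · simp
    have f5 : Fq Q (pc + (zv + (w2 + w3))) i - C (Fq (A := K) Q p i) =
        ∑ t, C (Km i t) * (∑ i', C (L t i') * g i') + (Bq Q zv w3 i + Fq Q (w2 + w3) i) := by
      rw [Fq_add, Fq_add Q zv, Bq_add Q pc, Bq_add Q zv, f1, f2, f3]
      have : Fq Q zv i + Bq Q zv w2 i = g i := by rw [hg']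
      linear_combination f4 + this
    rw [f5]
    refine Ideal.add_mem _ (Ideal.mem_sup_left ?_) (Ideal.mem_sup_right ?_)
    · exact Ideal.sum_mem _ fun t _ => Ideal.mul_mem_left _ _ (Ideal.subset_span ⟨t, rfl⟩)
    · exact Ideal.add_mem _ (Bq_mem Q zv w3 i I 1 3 hzv hw3) (Fq_mem Q (w2 + w3) i I 2 hw)
  · intro t
    exact Ideal.sum_mem _ fun i _ => Ideal.mul_mem_left _ _ (hg i)
  · have h6 : ∑ j, C (ℓ j) * pc j = 1 := by
      rw [← C_1, ← e1, map_sum, hpc]
      exact Finset.sum_congr rfl fun j _ => by rw [C_mul, algebraMap_eq]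
    have h7 : ∑ j, C (ℓ j) * zv j = 0 := by
      rw [hzv']
      simp only [Finset.mul_sum]
      rw [Finset.sum_comm]
      refine Finset.sum_eq_zero fun a _ => ?_
      calc ∑ j, C (ℓ j) * (X a * C (v a j)) = X a * C (∑ j, ℓ j * v a j) := by
            rw [map_sum, Finset.mul_sum]
            refine Finset.sum_congr rfl fun j _ => ?_
            rw [C_mul]
            ring
        _ = 0 := by rw [e2, map_zero, mul_zero]
    have h5 : ∑ j, C (ℓ j) * (pc + (zv + (w2 + w3))) j - 1 = ∑ j, C (ℓ j) * (w2 + w3) j := by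
      have h8 : ∀ j, C (ℓ j) * (pc + (zv + (w2 + w3))) j =
          C (ℓ j) * pc j + C (ℓ j) * zv j + C (ℓ j) * (w2 + w3) j := by
        intro j
        rw [Pi.add_apply, Pi.add_apply]
        ring
      rw [Finset.sum_congr rfl fun j _ => h8 j, Finset.sum_add_distrib, Finset.sum_add_distrib,
        h6, h7]
      ring
    rw [h5]
    exact Ideal.sum_mem _ fun j _ => Ideal.mul_mem_left _ _ (hw j)
  · intro b
    have h6 : ∑ j, C (lam b j) * pc j = 0 := by
      rw [← C_0, ← e3 b, map_sum, hpc]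
      exact Finset.sum_congr rfl fun j _ => by rw [C_mul, algebraMap_eq]
    have h7 : ∑ j, C (lam b j) * zv j = X b := by
      rw [hzv']
      simp only [Finset.mul_sum]
      have h9 : ∀ a, ∑ j, C (lam b j) * (X a * C (v a j)) =
          X a * C (∑ j, lam b j * v a j) := by
        intro a
        rw [map_sum, Finset.mul_sum]
        refine Finset.sum_congr rfl fun j _ => ?_
        rw [C_mul]
        ring
      rw [Finset.sum_comm, Finset.sum_eq_single b]
      · rw [h9, e4, if_pos rfl, C_1, mul_one]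
      · intro a _ hab
        rw [h9, e4, if_neg (Ne.symm hab), map_zero, mul_zero]
      · simp
    have h5 : ∑ j, C (lam b j) * (pc + (zv + (w2 + w3))) j - X b =
        ∑ j, C (lam b j) * (w2 + w3) j := by
      have h8 : ∀ j, C (lam b j) * (pc + (zv + (w2 + w3))) j =
          C (lam b j) * pc j + C (lam b j) * zv j + C (lam b j) * (w2 + w3) j := by
        intro j
        rw [Pi.add_apply, Pi.add_apply]
        ring
      rw [Finset.sum_congr rfl fun j _ => h8 j, Finset.sum_add_distrib, Finset.sum_add_distrib,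
        h6, h7]
      ring
    rw [h5]
    exact Ideal.sum_mem _ fun j _ => Ideal.mul_mem_left _ _ (hw j)

theorem exists_jet (Q : κ → ι → ι → K) (p : ι → K) (hJp : (Jq Q p).mulVec p ≠ 0) :
    ∃ (x : ι → MvPolynomial (Fin (Fintype.card ι - (Jq Q p).rank)) K)
      (h : Fin (Fintype.card κ - (Jq Q p).rank) →
        MvPolynomial (Fin (Fintype.card ι - (Jq Q p).rank)) K)
      (ℓ : ι → K) (lam : Fin (Fintype.card ι - (Jq Q p).rank) → ι → K),
      (∀ i, Fq Q x i - C (Fq (A := K) Q p i) ∈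
        Ideal.span (Set.range h) ⊔ idealOfVars _ K ^ 4) ∧
      (∀ t, h t ∈ idealOfVars _ K ^ 2) ∧
      (∑ j, C (ℓ j) * x j - 1 ∈ idealOfVars _ K ^ 2) ∧
      ∀ a, ∑ j, C (lam a j) * x j - X a ∈ idealOfVars _ K ^ 2 := by
  obtain ⟨ρ, Km, L, hρ⟩ := exists_split_matrix (Jq Q p)
  have hdim : Module.finrank K (LinearMap.ker (Jq Q p).mulVecLin) =
      Fintype.card ι - (Jq Q p).rank := by
    have h1 := LinearMap.finrank_range_add_finrank_ker (Jq Q p).mulVecLin
    rw [Module.finrank_fintype_fun_eq_card] at h1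
    have h2 : Module.finrank K (LinearMap.range (Jq Q p).mulVecLin) = (Jq Q p).rank := rfl
    omega
  let bk := Module.finBasisOfFinrankEq K _ hdim
  have hv : LinearIndependent K (fun a => (bk a : ι → K)) :=
    bk.linearIndependent.map' (Submodule.subtype _) (Submodule.ker_subtype _)
  have hp : p ∉ Submodule.span K (Set.range (fun a => (bk a : ι → K))) := by
    intro hp
    apply hJp
    have h1 : Submodule.span K (Set.range (fun a => (bk a : ι → K))) ≤
        LinearMap.ker (Jq Q p).mulVecLin := by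
      rw [Submodule.span_le]
      rintro _ ⟨a, rfl⟩
      exact (bk a).2
    exact h1 hp
  obtain ⟨ℓ, lam, e1, e2, e3, e4⟩ := exists_dual p _ hv hp
  obtain ⟨x, h, g1, g2, g3, g4⟩ := jet_aux Q p (fun a => (bk a : ι → K))
    (fun a i => congrFun (bk a).2 i) ρ Km L hρ ℓ lam e1 e2 e3 e4
  exact ⟨x, h, ℓ, lam, g1, g2, g3, g4⟩

end jet

end Pool.Agent.Q84.Pow
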