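import Mathlib
import Pool.Agent.Helper226.VCFam
import Pool.Agent.H349R3.RankLemma

/-! Linear spaces of matrices of large dimension contain nonzero matrices of low rank. -/

set_option autoImplicit false

universe u

namespace Pool.Agent.Q84.Pow

open MvPolynomial Pool.Agent.Helper226

section height

open Cardinal in
/-- The height of a maximal ideal of a finitely generated domain is at least the number of
algebraically independent elements. -/
lemma le_height {k A : Type u} [Field k] [CommRing A] [IsDomain A] [Algebra k A]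
    [Algebra.FiniteType k A] (m : Ideal A) (hm : m.IsMaximal) {ι : Type} [Fintype ι] (x : ι → A)
    (hx : AlgebraicIndependent k x) : ((Fintype.card ι : ℕ) : ℕ∞) ≤ m.height := by
  obtain ⟨s, g, ginj, gint⟩ := exists_integral_inj_algHom_of_fg k A
  let := g.toRingHom.toAlgebra
  have hint : Algebra.IsIntegral (MvPolynomial (Fin s) k) A := ⟨gint⟩
  have hfs : FaithfulSMul (MvPolynomial (Fin s) k) A :=
    (faithfulSMul_iff_algebraMap_injective _ _).2 ginj
  have hst : IsScalarTower k (MvPolynomial (Fin s) k) A :=
    IsScalarTower.of_algebraMap_eq' g.comp_algebraMap.symm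
  have hN : IsNoetherianRing A := Algebra.FiniteType.isNoetherianRing k A
  have halg : Algebra.IsAlgebraic (MvPolynomial (Fin s) k) A := hint.isAlgebraic
  have h1 := _root_.trdeg_add_eq k (MvPolynomial (Fin s) k) (A := A)
  rw [_root_.trdeg_eq_zero (R := MvPolynomial (Fin s) k) (A := A), add_zero, MvPolynomial.trdeg_of_isDomain] at h1
  have h2 := hx.lift_cardinalMk_le_trdeg
  rw [← h1] at h2
  have hcard : Fintype.card ι ≤ s := by
    simp only [Cardinal.mk_fintype, Fintype.card_fin, Cardinal.lift_natCast] at h2
    exact_mod_cast h2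
  let p : Ideal (MvPolynomial (Fin s) k) := m.comap (algebraMap _ A)
  have hp : p.IsMaximal := Ideal.isMaximal_comap_of_isIntegral_of_isMaximal m
  have hlo : m.LiesOver p := ⟨rfl⟩
  have h3 := Ideal.height_eq_height_add_of_liesOver_of_hasGoingDown p m
  have h4 : p.height ≤ m.height := by
    rw [h3]
    exact le_self_add
  rw [mvPolynomial_height k s p hp] at h4
  refine le_trans ?_ h4
  exact_mod_cast hcard

end height

/-- a product through a small space has determinant zero -/
lemma det_mul_eq_zero {P : Type*} [CommRing P] [IsDomain P] {m t : Type*} [Fintype m]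
    [DecidableEq m] [Fintype t] (A : Matrix m t P) (B : Matrix t m P)
    (h : Fintype.card t < Fintype.card m) : (A * B).det = 0 := by
  let F := FractionRing P
  apply IsFractionRing.injective P F
  rw [map_zero, RingHom.map_det]
  by_contra hne
  have h1 : IsUnit ((algebraMap P F).mapMatrix (A * B)) :=
    (Matrix.isUnit_iff_isUnit_det _).2 (isUnit_iff_ne_zero.2 hne)
  have h2 := Matrix.rank_of_isUnit _ h1
  have h3 : (algebraMap P F).mapMatrix (A * B) = A.map (algebraMap P F) * B.map (algebraMap P F) := by
    simp [RingHom.mapMatrix_apply, Matrix.map_mul]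
  rw [h3] at h2
  have h4 := Matrix.rank_mul_le_left (A.map (algebraMap P F)) (B.map (algebraMap P F))
  have h6 := Matrix.rank_le_card_width (A.map (algebraMap P F))
  omega

section main

variable (K : Type u) [Field K] (T A' B' : Type) [Fintype T] [DecidableEq T] [Fintype A']
  [DecidableEq A'] [Fintype B'] [DecidableEq B']

/-- the polynomial ring with the entries of two matrices -/
abbrev PP : Type u := MvPolynomial (((T ⊕ A') × T) ⊕ (T × (T ⊕ B'))) K

/-- the first generic matrix -/
noncomputable def YY : Matrix (T ⊕ A') T (PP K T A' B') := Matrix.of fun i l => X (Sum.inl (i, l))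

/-- the second generic matrix -/
noncomputable def ZZ : Matrix T (T ⊕ B') (PP K T A' B') := Matrix.of fun l j => X (Sum.inr (l, j))

/-- the product -/
noncomputable def WW : Matrix (T ⊕ A') (T ⊕ B') (PP K T A' B') := YY K T A' B' * ZZ K T A' B'

/-- the algebra generated by the entries of the product -/
noncomputable def RR : Subalgebra K (PP K T A' B') :=
  Algebra.adjoin K (Set.range fun p : (T ⊕ A') × (T ⊕ B') => WW K T A' B' p.1 p.2)

/-- the product as a matrix over the algebra -/
noncomputable def yy : Matrix (T ⊕ A') (T ⊕ B') (RR K T A' B') :=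
  Matrix.of fun i j => ⟨WW K T A' B' i j, Algebra.subset_adjoin ⟨(i, j), rfl⟩⟩

lemma finiteType_RR : Algebra.FiniteType K (RR K T A' B') := by
  rw [← Subalgebra.fg_iff_finiteType]
  exact Subalgebra.fg_def.2 ⟨_, Set.finite_range _, rfl⟩

variable {K T A' B'}

lemma hom_ext_RR {S : Type*} [CommRing S] [Algebra K S] (g g' : RR K T A' B' →ₐ[K] S)
    (h : ∀ i j, g (yy K T A' B' i j) = g' (yy K T A' B' i j)) : g = g' := by
  refine AlgHom.adjoin_ext ?_
  rintro _ ⟨⟨i, j⟩, rfl⟩
  exact h i j

/-- points have low rank -/
lemma rank_le_of_hom (g : RR K T A' B' →ₐ[K] K) :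
    ((yy K T A' B').map g).rank ≤ Fintype.card T := by
  by_contra hlt
  push Not at hlt
  obtain ⟨U, V, hUV⟩ := Pool.Agent.H349R3.exists_mul_mul_eq_one ((yy K T A' B').map g)
  let U' : Matrix _ _ (RR K T A' B') := U.map (algebraMap K _)
  let V' : Matrix _ _ (RR K T A' B') := V.map (algebraMap K _)
  have h1 : g (U' * yy K T A' B' * V').det = 1 := by
    have h2 : g (U' * yy K T A' B' * V').det = (g.mapMatrix (U' * yy K T A' B' * V')).det :=
      AlgHom.map_det g _
    rw [h2]
    have h3 : g.mapMatrix (U' * yy K T A' B' * V') = U * ((yy K T A' B').map g) * V := by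
      ext i j
      simp [U', V', Matrix.mul_apply]
    rw [h3, hUV, Matrix.det_one]
  have h4 : (U' * yy K T A' B' * V').det = 0 := by
    apply Subtype.val_injective
    have h5 : ((U' * yy K T A' B' * V').det : PP K T A' B') =
        ((RR K T A' B').val.mapMatrix (U' * yy K T A' B' * V')).det :=
      AlgHom.map_det (RR K T A' B').val _
    rw [h5]
    have h6 : (RR K T A' B').val.mapMatrix (U' * yy K T A' B' * V') =
        (U'.map (RR K T A' B').val * YY K T A' B') * (ZZ K T A' B' * V'.map (RR K T A' B').val) := by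
      have h7 : (yy K T A' B').map (RR K T A' B').val = YY K T A' B' * ZZ K T A' B' := rfl
      rw [AlgHom.mapMatrix_apply, Matrix.map_mul, Matrix.map_mul, h7, Matrix.mul_assoc,
        Matrix.mul_assoc, Matrix.mul_assoc]
    rw [h6]
    apply det_mul_eq_zero
    rw [Fintype.card_fin]
    exact hlt
  rw [h4, map_zero] at h1
  exact zero_ne_one h1

/-- the index set of the algebraically independent entries -/
abbrev DD (T A' B' : Type) : Type := (T × (T ⊕ B')) ⊕ (A' × T)

/-- positions -/
def pos : DD T A' B' → (T ⊕ A') × (T ⊕ B')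
  | Sum.inl p => (Sum.inl p.1, p.2)
  | Sum.inr p => (Sum.inr p.1, Sum.inl p.2)

lemma algInd : AlgebraicIndependent K
    (fun t : DD T A' B' => yy K T A' B' (pos t).1 (pos t).2) := by
  let F := FractionRing (MvPolynomial (DD T A' B') K)
  let x : DD T A' B' → F := fun t =>
    algebraMap (MvPolynomial (DD T A' B') K) F (X t)
  let Z1 : Matrix T T F := Matrix.of fun i j => x (Sum.inl (i, Sum.inl j))
  let V1 : Matrix A' T F := Matrix.of fun i j => x (Sum.inr (i, j))
  have hdet : IsUnit Z1.det := by
    rw [isUnit_iff_ne_zero]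
    have h1 : Z1 = (algebraMap (MvPolynomial (DD T A' B') K) F).mapMatrix
        ((MvPolynomial.rename (R := K) (fun p : T × T => (Sum.inl (p.1, Sum.inl p.2) : DD T A' B'))
          : MvPolynomial (T × T) K →ₐ[K] _).toRingHom.mapMatrix
          (Matrix.mvPolynomialX T T K)) := by
      ext i j
      simp [Z1, x, Matrix.mvPolynomialX]
    rw [h1, ← RingHom.map_det, ← RingHom.map_det]
    have hinj : Function.Injective (fun p : T × T => (Sum.inl (p.1, Sum.inl p.2) : DD T A' B')) := by
      rintro ⟨a, b⟩ ⟨c, d⟩ h
      simp only [Sum.inl.injEq, Prod.mk.injEq] at h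
      rw [h.1, h.2]
    intro h0
    rw [map_eq_zero_iff _ (IsFractionRing.injective _ F)] at h0
    have h2 := (map_eq_zero_iff _ (MvPolynomial.rename_injective (R := K) _ hinj)).1 h0
    exact Matrix.det_mvPolynomialX_ne_zero T K h2
  let Y1 : Matrix (T ⊕ A') T F := Matrix.of fun i l => Sum.elim (fun i => if i = l then 1 else 0)
    (fun i => (V1 * Z1⁻¹) i l) i
  let Zf : Matrix T (T ⊕ B') F := Matrix.of fun l j => x (Sum.inl (l, j))
  let θ : PP K T A' B' →ₐ[K] F := MvPolynomial.aeval
    (Sum.elim (fun p => Y1 p.1 p.2) (fun p => Zf p.1 p.2))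
  have hθ : ∀ i j, θ (WW K T A' B' i j) = (Y1 * Zf) i j := by
    intro i j
    simp only [WW, YY, ZZ, Matrix.mul_apply, Matrix.of_apply, map_sum, map_mul, θ,
      MvPolynomial.aeval_X, Sum.elim_inl, Sum.elim_inr]
  have hpos : ∀ t : DD T A' B', (Y1 * Zf) (pos t).1 (pos t).2 = x t := by
    rintro (⟨i, j⟩ | ⟨i, j⟩)
    · simp [pos, Matrix.mul_apply, Y1, Zf]
    · have h3 : (Y1 * Zf) (Sum.inr i) (Sum.inl j) = (V1 * Z1⁻¹ * Z1) i j := by
        simp only [Matrix.mul_apply, Y1, Zf, Z1, Matrix.of_apply, Sum.elim_inr]
      change (Y1 * Zf) (Sum.inr i) (Sum.inl j) = _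
      rw [h3, Matrix.mul_assoc, Matrix.nonsing_inv_mul _ hdet, Matrix.mul_one]
      rfl
  rw [AlgebraicIndependent]
  have hcomp : (θ.comp (RR K T A' B').val).comp
      (MvPolynomial.aeval (fun t : DD T A' B' => yy K T A' B' (pos t).1 (pos t).2)) =
      (IsScalarTower.toAlgHom K (MvPolynomial (DD T A' B') K) F) := by
    apply MvPolynomial.algHom_ext
    intro t
    rw [AlgHom.comp_apply, MvPolynomial.aeval_X, AlgHom.comp_apply]
    change θ (WW K T A' B' (pos t).1 (pos t).2) = _
    rw [hθ, hpos]
    rfl
  have hinj : Function.Injective ((θ.comp (RR K T A' B').val).comp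
      (MvPolynomial.aeval (fun t : DD T A' B' => yy K T A' B' (pos t).1 (pos t).2))) := by
    rw [hcomp]
    exact IsFractionRing.injective (MvPolynomial (DD T A' B') K) F
  intro p q hpq
  apply hinj
  rw [AlgHom.comp_apply, hpq, ← AlgHom.comp_apply]

/-- **Linear spaces of matrices of dimension larger than the codimension of the matrices of rank
at most `t` contain nonzero matrices of rank at most `t`.** -/
theorem exists_low_rank [IsAlgClosed K] {V : Type*} [AddCommGroup V] [Module K V]
    [FiniteDimensional K V] (M : V →ₗ[K] Matrix (T ⊕ A') (T ⊕ B') K)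
    (h : Fintype.card A' * Fintype.card B' < Module.finrank K V) :
    ∃ v, v ≠ 0 ∧ (M v).rank ≤ Fintype.card T := by
  classical
  by_contra hcon
  push Not at hcon
  have hinj : Function.Injective M := by
    rw [injective_iff_map_eq_zero]
    intro v hv
    by_contra hne
    have := hcon v hne
    rw [hv, Matrix.rank_zero] at this
    omega
  let L := LinearMap.range M
  have hL : Module.finrank K L = Module.finrank K V := LinearMap.finrank_range_of_inj hinj
  let Q := Matrix (T ⊕ A') (T ⊕ B') K ⧸ L
  have hQ : Module.finrank K Q + Module.finrank K V =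
      (Fintype.card T + Fintype.card A') * (Fintype.card T + Fintype.card B') := by
    rw [← hL, Submodule.finrank_quotient_add_finrank, Module.finrank_matrix]
    simp
  let bq := Module.finBasis K Q
  let Λ : Matrix (T ⊕ A') (T ⊕ B') K →ₗ[K] (Fin (Module.finrank K Q) → K) :=
    bq.equivFun.toLinearMap ∘ₗ L.mkQ
  have hΛ : ∀ N, Λ N = 0 ↔ ∃ v, M v = N := by
    intro N
    have h1 : Λ N = 0 ↔ L.mkQ N = 0 := by
      simp only [Λ, LinearMap.coe_comp, Function.comp_apply, LinearEquiv.coe_coe,
        LinearEquiv.map_eq_zero_iff]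
    rw [h1, Submodule.mkQ_apply, Submodule.Quotient.mk_eq_zero]
    exact LinearMap.mem_range
  let l : Fin (Module.finrank K Q) → RR K T A' B' := fun c =>
    ∑ i, ∑ j, Λ (Matrix.single i j 1) c • yy K T A' B' i j
  have hl : ∀ (g : RR K T A' B' →ₐ[K] K) c, g (l c) = Λ ((yy K T A' B').map g) c := by
    intro g c
    have h1 : (yy K T A' B').map g = ∑ i, ∑ j, g (yy K T A' B' i j) • Matrix.single i j 1 := by
      conv_lhs => rw [Matrix.matrix_eq_sum_single ((yy K T A' B').map g)]
      simp [Matrix.smul_single]
    rw [h1]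
    simp only [l, map_sum, map_smul, Finset.sum_apply, Pi.smul_apply, smul_eq_mul]
    exact Finset.sum_congr rfl fun i _ => Finset.sum_congr rfl fun j _ => mul_comm _ _
  let e0 : RR K T A' B' →ₐ[K] K :=
    (MvPolynomial.aeval (fun _ => (0 : K)) : PP K T A' B' →ₐ[K] K).comp (RR K T A' B').val
  have he0 : ∀ i j, e0 (yy K T A' B' i j) = 0 := by
    intro i j
    change (MvPolynomial.aeval (fun _ => (0 : K)) : PP K T A' B' →ₐ[K] K) (WW K T A' B' i j) = 0
    simp [WW, YY, ZZ, Matrix.mul_apply]
  have hm : (RingHom.ker e0).IsMaximal :=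
    RingHom.ker_isMaximal_of_surjective e0 (fun a => ⟨algebraMap K _ a, e0.commutes a⟩)
  have hft := finiteType_RR K T A' B'
  have hJ : IsJacobsonRing (RR K T A' B') := isJacobsonRing_of_finiteType (A := K)
  have hN : IsNoetherianRing (RR K T A' B') := Algebra.FiniteType.isNoetherianRing K _
  have hmin : RingHom.ker e0 ∈ (Ideal.span (Set.range l)).minimalPrimes := by
    refine ⟨⟨hm.isPrime, ?_⟩, ?_⟩
    · rw [Ideal.span_le]
      rintro _ ⟨c, rfl⟩
      rw [SetLike.mem_coe, RingHom.mem_ker, hl]
      have : (yy K T A' B').map e0 = 0 := by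
        ext i j
        exact he0 i j
      rw [this, map_zero]
      rfl
    · rintro q ⟨hq, hlq⟩ -
      have hqj : q.jacobson = q := hJ.out hq.isRadical
      intro x hx
      rw [← hqj, Ideal.jacobson, Submodule.mem_sInf]
      rintro M' ⟨hqM, hM'⟩
      obtain ⟨g, hg⟩ := exists_hom_of_maximal (k := K) M' hM'
      have h2 : Λ ((yy K T A' B').map g) = 0 := by
        ext c
        rw [← hl]
        change g (l c) = 0
        rw [← RingHom.mem_ker, hg]
        exact hqM (hlq (Ideal.subset_span ⟨c, rfl⟩))
      obtain ⟨v, hv⟩ := (hΛ _).1 h2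
      have h3 : v = 0 := by
        by_contra hne
        have h4 := hcon v hne
        rw [hv] at h4
        exact absurd (rank_le_of_hom g) (not_le.2 h4)
      have h5 : g = e0 := by
        apply hom_ext_RR
        intro i j
        rw [he0]
        have : ((yy K T A' B').map g) i j = 0 := by
          rw [← hv, h3, map_zero]
          rfl
        exact this
      rw [← hg, h5]
      exact hx
  have h1 := le_height (k := K) (RingHom.ker e0) hm _ (algInd (K := K) (T := T) (A' := A') (B' := B'))
  have h2 := Ideal.height_le_card_of_mem_minimalPrimes_span (Set.finite_range l) hmin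
  have h3 := Set.ncard_image_le (f := l) (Set.finite_univ)
  rw [Set.image_univ, Set.ncard_univ, Nat.card_eq_fintype_card, Fintype.card_fin] at h3
  have h4 : Fintype.card (DD T A' B') ≤ Module.finrank K Q := by
    have h5 := h1.trans h2
    have h6 : Fintype.card (DD T A' B') ≤ (Set.range l).ncard := by exact_mod_cast h5
    exact h6.trans h3
  simp only [Fintype.card_sum, Fintype.card_prod] at h4
  nlinarith

end main

end Pool.Agent.Q84.Pow
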