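import Mathlib
import Pool.Agent.Q84.Pow.Rank
import Pool.Agent.Q84.Pow.Jet
import Pool.Agent.Q84.Pow.Count

/-! Powers of `n + 1` quadratic forms in `n` variables. -/

set_option autoImplicit false

universe u

namespace Pool.Agent.Q84.Pow

open MvPolynomial

variable {K : Type u} [Field K]

lemma exists_coeffs_monomial {n : ℕ} (μ : Fin n →₀ ℕ) (hμ : μ.degree = 2) (c : K) :
    ∃ Q : Fin n → Fin n → K, (monomial μ c : MvPolynomial (Fin n) K) =
      ∑ j, ∑ l, C (Q j l) * (X j * X l) := by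
  classical
  obtain ⟨i, ν, rfl, hν⟩ := Pool.Agent.Helper226.exists_add_of_degree_succ μ 1 hμ
  obtain ⟨i', ξ, rfl, hξ⟩ := Pool.Agent.Helper226.exists_add_of_degree_succ ν 0 hν
  have hξ0 : ξ = 0 := (Finsupp.degree_eq_zero_iff _).1 hξ
  subst hξ0
  refine ⟨fun j l => if j = i ∧ l = i' then c else 0, ?_⟩
  rw [Finset.sum_eq_single i, Finset.sum_eq_single i']
  · beta_reduce
    rw [if_pos ⟨rfl, rfl⟩, X, X, monomial_mul, C_mul_monomial, add_zero]
    simp
  · intro l _ hl
    beta_reduce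
    rw [if_neg (fun h => hl h.2), C_0, zero_mul]
  · simp
  · intro j _ hj
    refine Finset.sum_eq_zero fun l _ => ?_
    beta_reduce
    rw [if_neg (fun h => hj h.1), C_0, zero_mul]
  · simp

lemma exists_coeffs {n : ℕ} (f : MvPolynomial (Fin n) K) (hf : f.IsHomogeneous 2) :
    ∃ Q : Fin n → Fin n → K, f = ∑ j, ∑ l, C (Q j l) * (X j * X l) := by
  classical
  have h1 : ∀ μ : Fin n →₀ ℕ, ∃ Q : Fin n → Fin n → K, μ ∈ f.support →
      (monomial μ (coeff μ f) : MvPolynomial (Fin n) K) =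
      ∑ j, ∑ l, C (Q j l) * (X j * X l) := by
    intro μ
    by_cases hμ : μ ∈ f.support
    · have hd : μ.degree = 2 := by
        have := hf (mem_support_iff.1 hμ)
        rwa [Finsupp.degree_eq_weight_one]
      obtain ⟨Q, hQ⟩ := exists_coeffs_monomial μ hd (coeff μ f)
      exact ⟨Q, fun _ => hQ⟩
    · exact ⟨0, fun h => absurd h hμ⟩
  choose Q hQ using h1
  refine ⟨fun j l => ∑ μ ∈ f.support, Q μ j l, ?_⟩
  conv_lhs => rw [f.as_sum]
  rw [Finset.sum_congr rfl fun μ hμ => hQ μ hμ, Finset.sum_comm]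
  refine Finset.sum_congr rfl fun j _ => ?_
  rw [Finset.sum_comm]
  refine Finset.sum_congr rfl fun l _ => ?_
  rw [map_sum, Finset.sum_mul]

lemma numeric {n r s : ℕ} (h : n + (r + 1) ^ 2 < 1 + r + (r + 1).choose 2 + (r + 2).choose 3)
    (hrs : r ≤ s) : n + (s + 1) ^ 2 < 1 + s + (s + 1).choose 2 + (s + 2).choose 3 := by
  induction s, hrs using Nat.le_induction with
  | base => exact h
  | succ s _ ih =>
    have e1 : (s + 1 + 1).choose 2 = (s + 1) + (s + 1).choose 2 := by
      rw [Nat.choose_succ_succ (s + 1) 1, Nat.choose_one_right]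
    have e2 : (s + 1 + 2).choose 3 = (s + 2).choose 2 + (s + 2).choose 3 :=
      Nat.choose_succ_succ (s + 2) 2
    have e3 : (s + 2).choose 2 = (s + 1) + (s + 1).choose 2 := e1
    rw [e1, e2, e3]
    nlinarith

theorem exists_form_not_mem [IsAlgClosed K] (h2 : (2 : K) ≠ 0) {n k r : ℕ} (hk : 1 ≤ k)
    (hr : (r + 1) * r < n)
    (hn : n + (r + 1) ^ 2 < 1 + r + (r + 1).choose 2 + (r + 2).choose 3)
    (f : Fin (n + 1) → MvPolynomial (Fin n) K) (hf : ∀ i, (f i).IsHomogeneous 2) :
    ∃ g : MvPolynomial (Fin n) K, g.IsHomogeneous (2 * k + 1) ∧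
      g ∉ Ideal.span (Set.range f) ^ k := by
  by_contra hcon
  push Not at hcon
  choose Q hQ using fun i => exists_coeffs (f i) (hf i)
  have hFq : ∀ {A : Type u} [CommRing A] [Algebra K A] (x : Fin n → A) (i : Fin (n + 1)),
      aeval x (f i) = Fq Q x i := by
    intro A _ _ x i
    conv_lhs => rw [hQ i]
    unfold Fq
    simp only [map_sum, map_mul, aeval_C, aeval_X]
  have hrn : r < n := by nlinarith
  let e1 : Fin (n - r) ⊕ Fin (r + 1) ≃ Fin (n + 1) := finSumFinEquiv.trans (finCongr (by omega))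
  let e2 : Fin (n - r) ⊕ Fin r ≃ Fin n := finSumFinEquiv.trans (finCongr (by omega))
  let M : (Fin n → K) →ₗ[K] Matrix (Fin (n - r) ⊕ Fin (r + 1)) (Fin (n - r) ⊕ Fin r) K :=
    { toFun := fun p => (Jq Q p).submatrix e1 e2
      map_add' := by
        intro p q
        ext i j
        simp [Jq, mul_add, Finset.sum_add_distrib]
      map_smul' := by
        intro c p
        ext i j
        simp only [Jq, Matrix.submatrix_apply, Matrix.of_apply, Pi.smul_apply, smul_eq_mul,
          RingHom.id_apply, Matrix.smul_apply, Finset.mul_sum]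
        exact Finset.sum_congr rfl fun l _ => by ring }
  obtain ⟨p, hp0, hp⟩ := exists_low_rank (K := K) M (by
    rw [Fintype.card_fin, Fintype.card_fin, Module.finrank_fintype_fun_eq_card, Fintype.card_fin]
    exact hr)
  have hrank : (Jq Q p).rank ≤ n - r := by
    have h3 : (M p).rank = (Jq Q p).rank := Matrix.rank_submatrix (Jq Q p) e1 e2
    rw [h3, Fintype.card_fin] at hp
    exact hp
  by_cases hc : ∀ i, Fq (A := K) Q p i = 0
  · obtain ⟨j, hj⟩ := Function.ne_iff.1 hp0
    have h3 : (X j : MvPolynomial (Fin n) K) ^ (2 * k + 1) ∈ Ideal.span (Set.range f) ^ k := by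
      apply hcon
      have := (isHomogeneous_X K j).pow (2 * k + 1)
      rwa [one_mul] at this
    have h4 : Ideal.span (Set.range f) ^ k ≤ RingHom.ker (aeval p : MvPolynomial (Fin n) K →ₐ[K] K) := by
      refine (Ideal.pow_le_self (by omega)).trans ?_
      rw [Ideal.span_le]
      rintro _ ⟨i, rfl⟩
      rw [SetLike.mem_coe, RingHom.mem_ker, hFq]
      exact hc i
    have h5 := h4 h3
    rw [RingHom.mem_ker, map_pow, aeval_X] at h5
    exact hj (pow_eq_zero_iff (by omega) |>.1 h5)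
  · push Not at hc
    obtain ⟨i, hi⟩ := hc
    have hJp : (Jq Q p).mulVec p ≠ 0 := by
      intro h
      have h3 := congrFun h i
      rw [Jq_self] at h3
      exact mul_ne_zero h2 hi h3
    obtain ⟨x, h, ℓ, lam, g1, g2, g3, g4⟩ := exists_jet Q p hJp
    have h5 := count f hf (fun i => Fq (A := K) Q p i) x h ℓ lam (by
      intro i
      rw [hFq]
      exact g1 i) g2 g3 g4 k hk hcon
    simp only [Fintype.card_fin] at h5
    have h6 : (Jq Q p).rank ≤ n := by omega
    obtain ⟨s, hs⟩ : ∃ s, s = n - (Jq Q p).rank := ⟨_, rfl⟩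
    have hs1 : n + 1 - (Jq Q p).rank = s + 1 := by omega
    rw [← hs, hs1] at h5
    have h7 := numeric hn (s := s) (by omega)
    nlinarith

end Pool.Agent.Q84.Pow
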